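import Pool.Agent.Helper43.Own.Glue

/-!
# Gluing MO-mappings fails for a compact set in the plane and its projection onto an interval
-/

set_option autoImplicit false

universe u

namespace Pool.Agent.Results.MP_0eaf94_gt.PlanarExample

open Set Function Pool.Agent.Helper43.Own

/-- MO-mapping: an open mapping onto a compact metric space followed by a monotone mapping -/
def IsMO {X Y : Type} [TopologicalSpace X] [TopologicalSpace Y] (f : X → Y) : Prop :=
  ∃ (Z : Type) (_ : MetricSpace Z) (_ : CompactSpace Z) (h : X → Z) (g : Z → Y),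
    Continuous h ∧ IsOpenMap h ∧ Surjective h ∧ Continuous g ∧
      (∀ y, IsConnected (g ⁻¹' {y})) ∧ g ∘ h = f

private theorem mapsTo_XS : MapsTo Prod.fst Glue.XS (Icc (0 : ℝ) 3) := fun _ hp => hp.1

private theorem restrict_eq : mapsTo_XS.restrict Prod.fst Glue.XS (Icc (0 : ℝ) 3) = Glue.f := rfl

private theorem isMO_of {C : Set (Icc (0 : ℝ) 3)}
    (H : ∃ (Z : Type) (_ : MetricSpace Z) (_ : CompactSpace Z)
          (h : ↥(Glue.f ⁻¹' C) → Z) (g : Z → ↥C),
          Continuous h ∧ IsOpenMap h ∧ Surjective h ∧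
          Continuous g ∧ Surjective g ∧ (∀ y, IsConnected (g ⁻¹' {y})) ∧
          ∀ x : ↥(Glue.f ⁻¹' C), ((g (h x) : ↥C) : Icc (0 : ℝ) 3) = Glue.f x) :
    IsMO (C.restrictPreimage Glue.f) := by
  obtain ⟨Z, i1, i2, h, g, h1, h2, h3, h4, -, h6, h7⟩ := H
  exact ⟨Z, i1, i2, h, g, h1, h2, h3, h4, h6, funext fun x => Subtype.ext (h7 x)⟩

/-- A compact set `K` in the plane whose projection `f` onto `[0, 3]` is an MO-mapping over the
closures of the open sets `[0, 2)` and `(1, 3]`, but is not an open mapping onto a Hausdorff space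
followed by a map with connected fibres. -/
theorem result :
    ∃ (K : Set (ℝ × ℝ)) (hK : MapsTo Prod.fst K (Icc (0 : ℝ) 3)), IsCompact K ∧
      Surjective (hK.restrict Prod.fst K (Icc (0 : ℝ) 3)) ∧
      IsMO ((closure {y : Icc (0 : ℝ) 3 | (y : ℝ) < 2}).restrictPreimage
        (hK.restrict Prod.fst K (Icc (0 : ℝ) 3))) ∧
      IsMO ((closure {y : Icc (0 : ℝ) 3 | 1 < (y : ℝ)}).restrictPreimage
        (hK.restrict Prod.fst K (Icc (0 : ℝ) 3))) ∧
      ∀ (Z : Type u) [TopologicalSpace Z] [T2Space Z] (h : K → Z) (g : Z → Icc (0 : ℝ) 3),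
        Continuous h → IsOpenMap h → Surjective h → (∀ y, IsPreconnected (g ⁻¹' {y})) →
          g ∘ h ≠ hK.restrict Prod.fst K (Icc (0 : ℝ) 3) := by
  refine ⟨Glue.XS, mapsTo_XS, Glue.isCompact_XS, ?_, ?_, ?_, ?_⟩
  · rw [restrict_eq]
    exact Glue.surjective_f
  · rw [restrict_eq]
    exact isMO_of (Glue.left_MO _ isClosed_closure (closure_minimal
      (fun y (hy : (y : ℝ) < 2) => hy.le)
      (isClosed_le continuous_subtype_val continuous_const)))
  · rw [restrict_eq]
    exact isMO_of (Glue.right_MO _ isClosed_closure (closure_minimal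
      (fun y (hy : 1 < (y : ℝ)) => hy.le)
      (isClosed_le continuous_const continuous_subtype_val)))
  · intro Z _ _ h g hc ho hs hg hgh
    rw [restrict_eq] at hgh
    exact Glue.no_global h g hc ho hs hg fun x => congrFun hgh x

end Pool.Agent.Results.MP_0eaf94_gt.PlanarExample
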